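import Pool.Agent.N284.Shanks.Proof

set_option autoImplicit false

open MvPolynomial

namespace Pool.Agent.Results.MP_52e642_an.WeakShanksFails

open Pool.Agent.N284.Shanks

/-- **The weak Shanks conjecture fails on the bidisk.**  There are a polynomial `f` without zeros in
the closed bidisk, an index `n` and a point of the open bidisk at which the `n`-th optimal polynomial
approximant of `1 / f` in `H²(𝔻²)` (which exists and is unique) vanishes. -/
theorem result :
    ∃ f : MvPolynomial (Fin 2) ℂ,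
      (∀ z : Fin 2 → ℂ, ‖z 0‖ ≤ 1 → ‖z 1‖ ≤ 1 → eval z f ≠ 0) ∧
      ∃ (n : ℕ) (q : MvPolynomial (Fin 2) ℂ),
        (IsOPA n f q ∧ ∀ p, IsOPA n f p → p = q) ∧
        ∃ z : Fin 2 → ℂ, ‖z 0‖ < 1 ∧ ‖z 1‖ < 1 ∧ eval z q = 0 := by
  refine ⟨F, F_zero_free, 2, Q, ⟨isOPA_Q, opa_unique⟩, fun _ => 32820 / 33072, ?_, ?_, ?_⟩
  · simp only [norm_div, RCLike.norm_ofNat]
    norm_num
  · simp only [norm_div, RCLike.norm_ofNat]
    norm_num
  · unfold Q
    simp only [map_add, smul_eval, eval_X, map_one]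
    norm_num

end Pool.Agent.Results.MP_52e642_an.WeakShanksFails
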